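import Mathlib

/-!
Coefficients of squarefree monomials in products of elementary symmetric functions in several
disjoint sequences of variables.
-/

set_option autoImplicit false

namespace Pool.Agent.R133.Had

open Classical in
/-- The elementary symmetric function `e_m(x^(i))` of the `i`-th sequence of variables
`x^(i)_0, x^(i)_1, …` (the variables are indexed by `Fin k × ℕ`): the sum of all squarefree
monomials of degree `m` in the variables `x^(i)_j`. It is `1` for `m = 0` and `0` for `m < 0`. -/
noncomputable def e {k : ℕ} (i : Fin k) (m : ℤ) : MvPowerSeries (Fin k × ℕ) ℤ := fun s =>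
  if (∀ v, s v ≤ 1) ∧ (∀ v, s v ≠ 0 → v.1 = i) ∧ ((s.sum fun _ a => a : ℕ) : ℤ) = m then 1 else 0

/-- indicator exponent of a finite set of variables -/
noncomputable def ind {k : ℕ} (S : Finset (Fin k × ℕ)) : (Fin k × ℕ) →₀ ℕ :=
  Finsupp.indicator S (fun _ _ => 1)

lemma ind_apply {k : ℕ} (S : Finset (Fin k × ℕ)) (v : Fin k × ℕ) :
    ind S v = if v ∈ S then 1 else 0 := by
  simp [ind, Finsupp.indicator_apply]

lemma ind_sum {k : ℕ} (S : Finset (Fin k × ℕ)) : ((ind S).sum fun _ a => a) = S.card := by
  rw [Finsupp.sum, Finset.card_eq_sum_ones]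
  have h : (ind S).support = S := by
    ext v
    simp [Finsupp.mem_support_iff, ind_apply]
  rw [h]
  refine Finset.sum_congr rfl fun v hv => ?_
  rw [ind_apply, if_pos hv]

lemma coeff_e {k : ℕ} (i : Fin k) (m : ℤ) (S : Finset (Fin k × ℕ)) :
    MvPowerSeries.coeff (ind S) (e i m) =
      if (∀ v ∈ S, v.1 = i) ∧ (S.card : ℤ) = m then 1 else 0 := by
  classical
  have h0 : MvPowerSeries.coeff (ind S) (e i m) = e i m (ind S) := rfl
  rw [h0, e, ind_sum]
  have h1 : (∀ v, ind S v ≤ 1) := by
    intro v
    rw [ind_apply]
    split_ifs <;> omega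
  have h2 : (∀ v, ind S v ≠ 0 → v.1 = i) ↔ (∀ v ∈ S, v.1 = i) := by
    refine forall_congr' fun v => ?_
    rw [ind_apply]
    by_cases hv : v ∈ S <;> simp [hv]
  simp only [h1, implies_true, true_and, h2]

/-- product rule at squarefree exponents -/
lemma coeff_mul_ind {k : ℕ} (f g : MvPowerSeries (Fin k × ℕ) ℤ) (S : Finset (Fin k × ℕ)) :
    MvPowerSeries.coeff (ind S) (f * g) =
      ∑ T ∈ S.powerset, MvPowerSeries.coeff (ind T) f * MvPowerSeries.coeff (ind (S \ T)) g := by
  classical
  rw [MvPowerSeries.coeff_mul]
  symm
  refine Finset.sum_bij (fun T _ => (ind T, ind (S \ T))) ?_ ?_ ?_ ?_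
  · intro T hT
    rw [Finset.mem_powerset] at hT
    rw [Finset.HasAntidiagonal.mem_antidiagonal]
    ext v
    simp only [Finsupp.add_apply, ind_apply, Finset.mem_sdiff]
    by_cases h1 : v ∈ T
    · simp [h1, hT h1]
    · by_cases h2 : v ∈ S <;> simp [h1, h2]
  · intro T hT T' hT' h
    have h1 : ind T = ind T' := congrArg Prod.fst h
    ext v
    have h2 := DFunLike.congr_fun h1 v
    rw [ind_apply, ind_apply] at h2
    by_cases h3 : v ∈ T <;> by_cases h4 : v ∈ T' <;> simp_all
  · rintro ⟨a, b⟩ hab
    rw [Finset.HasAntidiagonal.mem_antidiagonal] at hab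
    have hv : ∀ v, a v + b v = if v ∈ S then 1 else 0 := by
      intro v
      rw [← ind_apply, ← hab]
      rfl
    refine ⟨S.filter (fun v => a v = 1), ?_, ?_⟩
    · simp
    · refine Prod.ext ?_ ?_
      · ext v
        rw [ind_apply]
        have := hv v
        by_cases h : v ∈ S
        · simp only [Finset.mem_filter, h, true_and]
          rw [if_pos h] at this
          split_ifs <;> omega
        · simp only [Finset.mem_filter, h, false_and]
          rw [if_neg h] at this
          simp
          omega
      · ext v
        rw [ind_apply]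
        have := hv v
        by_cases h : v ∈ S
        · simp only [Finset.mem_sdiff, Finset.mem_filter, h, true_and]
          rw [if_pos h] at this
          split_ifs <;> omega
        · simp only [Finset.mem_sdiff, Finset.mem_filter, h, false_and]
          rw [if_neg h] at this
          simp
          omega
  · intro T hT
    rfl

/-- the part of `S` in the `i`-th sequence of variables -/
def slice {k : ℕ} (S : Finset (Fin k × ℕ)) (i : Fin k) : Finset (Fin k × ℕ) :=
  S.filter (fun v => v.1 = i)

/-- `f` has coefficients `c (card of slices)` at squarefree exponents -/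
def Good {k : ℕ} (f : MvPowerSeries (Fin k × ℕ) ℤ) (c : (Fin k → ℕ) → ℤ) : Prop :=
  ∀ S : Finset (Fin k × ℕ), MvPowerSeries.coeff (ind S) f = c (fun i => (slice S i).card)

lemma good_one {k : ℕ} : Good (1 : MvPowerSeries (Fin k × ℕ) ℤ)
    (fun n => if n = 0 then 1 else 0) := by
  classical
  intro S
  rw [MvPowerSeries.coeff_one]
  have h : ind S = 0 ↔ (fun i => (slice S i).card) = (0 : Fin k → ℕ) := by
    constructor
    · intro h
      have hS : S = ∅ := by
        ext v
        have := DFunLike.congr_fun h v
        rw [ind_apply] at this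
        by_cases hv : v ∈ S <;> simp_all
      subst hS
      funext i
      simp [slice]
    · intro h
      ext v
      rw [ind_apply]
      have h1 := congrFun h v.1
      simp only [Pi.zero_apply, Finset.card_eq_zero] at h1
      by_cases hv : v ∈ S
      · exfalso
        have : v ∈ slice S v.1 := by simp [slice, hv]
        rw [h1] at this
        simp at this
      · simp [hv]
  simp only [h]

lemma good_e_mul {k : ℕ} (i : Fin k) (m : ℕ) {f : MvPowerSeries (Fin k × ℕ) ℤ}
    {c : (Fin k → ℕ) → ℤ} (hf : Good f c) :
    Good (e i (m : ℤ) * f)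
      (fun n => ((n i).choose m : ℤ) * c (Function.update n i (n i - m))) := by
  classical
  intro S
  rw [coeff_mul_ind]
  have h1 : ∀ T ∈ S.powerset, MvPowerSeries.coeff (ind T) (e i (m : ℤ)) *
      MvPowerSeries.coeff (ind (S \ T)) f =
      if T ∈ (slice S i).powersetCard m then
        c (Function.update (fun j => (slice S j).card) i ((slice S i).card - m)) else 0 := by
    intro T hT
    rw [Finset.mem_powerset] at hT
    rw [coeff_e, hf]
    have h2 : ((∀ v ∈ T, v.1 = i) ∧ (T.card : ℤ) = m) ↔ T ∈ (slice S i).powersetCard m := by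
      rw [Finset.mem_powersetCard]
      constructor
      · rintro ⟨ha, hb⟩
        refine ⟨fun v hv => ?_, by exact_mod_cast hb⟩
        rw [slice, Finset.mem_filter]
        exact ⟨hT hv, ha v hv⟩
      · rintro ⟨ha, hb⟩
        refine ⟨fun v hv => ?_, by exact_mod_cast hb⟩
        have := ha hv
        rw [slice, Finset.mem_filter] at this
        exact this.2
    by_cases h3 : T ∈ (slice S i).powersetCard m
    · rw [if_pos (h2.2 h3), if_pos h3, one_mul]
      congr 1
      funext j
      rw [Finset.mem_powersetCard] at h3
      by_cases hj : j = i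
      · subst hj
        rw [Function.update_self]
        have : slice (S \ T) j = slice S j \ T := by
          ext v
          simp only [slice, Finset.mem_filter, Finset.mem_sdiff]
          tauto
        rw [this, Finset.card_sdiff_of_subset h3.1, h3.2]
      · rw [Function.update_of_ne hj]
        congr 1
        ext v
        simp only [slice, Finset.mem_filter, Finset.mem_sdiff]
        constructor
        · tauto
        · rintro ⟨hv1, hv2⟩
          refine ⟨⟨hv1, fun hv3 => ?_⟩, hv2⟩
          have := h3.1 hv3
          rw [slice, Finset.mem_filter] at this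
          exact hj (hv2.symm.trans this.2)
    · rw [if_neg (fun h => h3 (h2.1 h)), if_neg h3, zero_mul]
  rw [Finset.sum_congr rfl h1, ← Finset.sum_filter]
  have h4 : S.powerset.filter (fun T => T ∈ (slice S i).powersetCard m) =
      (slice S i).powersetCard m := by
    ext T
    rw [Finset.mem_filter, Finset.mem_powerset, Finset.mem_powersetCard]
    constructor
    · tauto
    · rintro ⟨ha, hb⟩
      exact ⟨ha.trans (Finset.filter_subset _ _), ha, hb⟩
  rw [h4, Finset.sum_const, Finset.card_powersetCard, nsmul_eq_mul]

end Pool.Agent.R133.Had
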