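import Pool.Agent.R133.Had

/-!
A squarefree monomial with negative coefficient in the determinant of the Hadamard product of two
(dual) Jacobi-Trudi matrices with three rows.
-/

set_option autoImplicit false

namespace Pool.Agent.R133.Had

/-- A skew shape `outer / inner` with `n` rows (parts may be `0`). -/
structure SkewShape (n : ℕ) where
  /-- the outer partition `λ` -/
  outer : Fin n → ℕ
  /-- the inner partition `μ` -/
  inner : Fin n → ℕ
  outer_anti : Antitone outer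
  inner_anti : Antitone inner
  inner_le : ∀ a, inner a ≤ outer a

/-- The Jacobi-Trudi matrix with `(a, b)` entry `e_{(λ_a - a) - (μ_b - b)}(x^(i))`. -/
noncomputable def JT {k n : ℕ} (i : Fin k) (S : SkewShape n) :
    Matrix (Fin n) (Fin n) (MvPowerSeries (Fin k × ℕ) ℤ) :=
  Matrix.of fun a b => e i (((S.outer a : ℤ) - (a : ℕ)) - ((S.inner b : ℤ) - (b : ℕ)))

/-- the shape `(17,15,15) / (2,2,0)` -/
def shapeA : SkewShape 3 where
  outer := ![17, 15, 15]
  inner := ![2, 2, 0]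
  outer_anti := by decide
  inner_anti := by decide
  inner_le := by decide

/-- the shape `(17,17,15) / (2,0,0)` -/
def shapeB : SkewShape 3 where
  outer := ![17, 17, 15]
  inner := ![2, 0, 0]
  outer_anti := by decide
  inner_anti := by decide
  inner_le := by decide

/-- the set of variables `x^(0)_0, …, x^(0)_42, x^(1)_0, …, x^(1)_46` -/
def S0 : Finset (Fin 2 × ℕ) :=
  ({0} ×ˢ Finset.range 43) ∪ ({1} ×ˢ Finset.range 47)

lemma slice_zero : (slice S0 0).card = 43 := by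
  have : slice S0 0 = {0} ×ˢ Finset.range 43 := by
    ext ⟨i, j⟩
    fin_cases i <;> simp [slice, S0]
  rw [this]
  simp

lemma slice_one : (slice S0 1).card = 47 := by
  have : slice S0 1 = {1} ×ˢ Finset.range 47 := by
    ext ⟨i, j⟩
    fin_cases i <;> simp [slice, S0]
  rw [this]
  simp

/-- the coefficient of the squarefree monomial in a product of six elementary functions -/
lemma term (r1 r2 r3 s1 s2 s3 : ℕ) :
    MvPowerSeries.coeff (ind S0)
      ((e (0 : Fin 2) (r1 : ℤ) * e 1 (s1 : ℤ)) * (e (0 : Fin 2) (r2 : ℤ) * e 1 (s2 : ℤ)) *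
        (e (0 : Fin 2) (r3 : ℤ) * e 1 (s3 : ℤ))) =
      (Nat.choose 43 r1 : ℤ) * ((Nat.choose (43 - r1) r2 : ℤ) * ((Nat.choose (43 - r1 - r2) r3 : ℤ) *
        ((Nat.choose 47 s1 : ℤ) * ((Nat.choose (47 - s1) s2 : ℤ) *
          ((Nat.choose (47 - s1 - s2) s3 : ℤ) *
          (if 43 - r1 - r2 - r3 = 0 ∧ 47 - s1 - s2 - s3 = 0 then 1 else 0)))))) := by
  have h := good_e_mul (0 : Fin 2) r1 (good_e_mul (0 : Fin 2) r2 (good_e_mul (0 : Fin 2) r3
    (good_e_mul (1 : Fin 2) s1 (good_e_mul (1 : Fin 2) s2 (good_e_mul (1 : Fin 2) s3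
      (good_one (k := 2))))))) S0
  have h1 : (e (0 : Fin 2) (r1 : ℤ) * e 1 (s1 : ℤ)) * (e (0 : Fin 2) (r2 : ℤ) * e 1 (s2 : ℤ)) *
        (e (0 : Fin 2) (r3 : ℤ) * e 1 (s3 : ℤ)) =
      e (0 : Fin 2) (r1 : ℤ) * (e 0 (r2 : ℤ) * (e 0 (r3 : ℤ) * (e 1 (s1 : ℤ) * (e 1 (s2 : ℤ) *
        (e 1 (s3 : ℤ) * 1))))) := by ring
  rw [h1, h]
  simp only [slice_zero, slice_one, Function.update_self, Function.update_of_ne,
    ne_eq, not_false_eq_true, one_ne_zero, funext_iff, Fin.forall_fin_two, Pi.zero_apply,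
    zero_ne_one]

/-- The coefficient of `x^(0)_0 ⋯ x^(0)_42 x^(1)_0 ⋯ x^(1)_46` in
`det (JT_{(17,15,15)/(2,2,0)}(x^(0)) * JT_{(17,17,15)/(2,0,0)}(x^(1)))`. -/
theorem coeff_det :
    MvPowerSeries.coeff (ind S0)
      (Matrix.det (Matrix.hadamard (JT (0 : Fin 2) shapeA) (JT (1 : Fin 2) shapeB))) =
      -1611163779164739093850254117352672200 := by
  rw [Matrix.det_fin_three]
  have hA : ∀ a b : Fin 3, (((shapeA.outer a : ℤ) - (a : ℕ)) - ((shapeA.inner b : ℤ) - (b : ℕ))) =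
      ((!![15, 16, 19; 12, 13, 16; 11, 12, 15] : Matrix (Fin 3) (Fin 3) ℕ) a b : ℤ) := by decide
  have hB : ∀ a b : Fin 3, (((shapeB.outer a : ℤ) - (a : ℕ)) - ((shapeB.inner b : ℤ) - (b : ℕ))) =
      ((!![15, 18, 19; 14, 17, 18; 11, 14, 15] : Matrix (Fin 3) (Fin 3) ℕ) a b : ℤ) := by decide
  simp only [Matrix.hadamard_apply, JT, Matrix.of_apply, hA, hB, map_sub, map_add]
  simp only [term]
  simp only [Matrix.of_apply, Matrix.cons_val', Matrix.cons_val_zero, Matrix.cons_val_one,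
    Matrix.cons_val_two, Matrix.cons_val, Matrix.cons_val_fin_one]
  norm_num [Nat.choose]

end Pool.Agent.R133.Had
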